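import Pool.Agent.H98.SLN.Targets

/-!
# Row MOQ of sln_modules (MP_65efe8_pr): exponential moments on the scale of the cells
-/

set_option autoImplicit false

open MeasureTheory ProbabilityTheory Filter Topology

namespace Pool.Agent.H35.SLN

open Pool.Agent.H98.SLN

theorem moq_exp (y : ℝ) (n : ℕ) :
    |Real.exp y - ∑ m ∈ Finset.range n, y ^ m / m.factorial| ≤ |y| ^ n * Real.exp |y| := by
  have h := Complex.norm_exp_sub_sum_le_norm_mul_exp (y : ℂ) n
  have e : Complex.exp (y : ℂ) - ∑ m ∈ Finset.range n, (y : ℂ) ^ m / (m.factorial : ℂ) =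
      ((Real.exp y - ∑ m ∈ Finset.range n, y ^ m / m.factorial : ℝ) : ℂ) := by
    push_cast; rfl
  rw [e, Complex.norm_real, Complex.norm_real, Real.norm_eq_abs, Real.norm_eq_abs] at h
  exact h

theorem moq_e1 (y : ℝ) : |Real.exp y - 1| ≤ |y| * Real.exp |y| := by
  have h := moq_exp y 1
  simpa [Finset.sum_range_succ] using h

theorem moq_e2 (y : ℝ) : |Real.exp y - 1 - y| ≤ |y| ^ 2 * Real.exp |y| := by
  have h := moq_exp y 2
  simp only [Finset.sum_range_succ, Finset.sum_range_zero, pow_zero, pow_one, Nat.factorial,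
    Nat.cast_one, mul_one, div_one, zero_add] at h
  rw [show Real.exp y - 1 - y = Real.exp y - (1 + y) by ring]
  exact h

theorem moq_e3 (y : ℝ) : |Real.exp y - 1 - y - y ^ 2 / 2| ≤ |y| ^ 3 * Real.exp |y| := by
  have h := moq_exp y 3
  simp only [Finset.sum_range_succ, Finset.sum_range_zero, pow_zero, pow_one, Nat.factorial,
    Nat.cast_one, mul_one, div_one, zero_add, Nat.succ_eq_add_one, Nat.reduceAdd,
    Nat.cast_ofNat] at h
  rw [show Real.exp y - 1 - y - y ^ 2 / 2 = Real.exp y - (1 + y + y ^ 2 / 2) by ring]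
  exact h

theorem moq_int {μ : Measure ℝ} (hexp : ∀ t : ℝ, Integrable (fun z => Real.exp (t * z)) μ)
    {f : ℝ → ℝ} (hf : Continuous f) (C c : ℝ) (hb : ∀ z, |f z| ≤ C * Real.exp (c * |z|)) :
    Integrable f μ := by
  have hC : 0 ≤ C := by
    have h := (abs_nonneg _).trans (hb 0)
    simpa using h
  refine (((hexp c).add (hexp (-c))).const_mul C).mono' hf.aestronglyMeasurable
    (Filter.Eventually.of_forall fun z => ?_)
  rw [Real.norm_eq_abs]
  refine (hb z).trans (mul_le_mul_of_nonneg_left ?_ hC)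
  rcases abs_choice z with h | h
  · rw [h]
    have := Real.exp_pos (-c * z)
    simp only [Pi.add_apply]
    linarith
  · rw [h]
    have := Real.exp_pos (c * z)
    simp only [Pi.add_apply]
    rw [show c * -z = -c * z by ring]
    linarith

/-- the basic estimates -/
theorem moq_base (μ : Measure ℝ) [IsProbabilityMeasure μ]
    (hexp : ∀ t : ℝ, Integrable (fun z => Real.exp (t * z)) μ) (h1 : ∫ z, z ∂μ = 0)
    (h2 : ∫ z, z ^ 2 ∂μ = 1) : ∃ A B : ℝ, 0 ≤ A ∧ 0 ≤ B ∧ ∀ t : ℝ, |t| ≤ 1 →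
      1 ≤ ∫ z, Real.exp (t * z) ∂μ ∧
      |(∫ z, Real.exp (t * z) ∂μ) - 1 - t ^ 2 / 2| ≤ A * |t| ^ 3 ∧
      |(∫ z, z * Real.exp (t * z) ∂μ) - t| ≤ A * |t| ^ 2 ∧
      |(∫ z, z ^ 2 * Real.exp (t * z) ∂μ) - 1| ≤ A * |t| ∧
      Integrable (fun z => z * Real.exp (t * z)) μ ∧
      Integrable (fun z => z ^ 2 * Real.exp (t * z)) μ ∧
      ∀ a : ℝ, |a| ≤ 1 → ∫ z, (z + a) ^ 4 * Real.exp (t * z) ∂μ ≤ B := by
  have pw : ∀ (z : ℝ) (k : ℕ), |z| ^ k ≤ k.factorial * Real.exp |z| := by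
    intro z k
    have h := Real.pow_div_factorial_le_exp |z| (abs_nonneg z) k
    rwa [div_le_iff₀ (by positivity), mul_comm] at h
  have ez : ∀ z : ℝ, Real.exp |z| * Real.exp |z| = Real.exp (2 * |z|) := by
    intro z; rw [← Real.exp_add]; ring_nf
  have e1 : ∀ z : ℝ, 1 ≤ Real.exp |z| := fun z => Real.one_le_exp (abs_nonneg z)
  -- integrability
  have iz : ∀ k : ℕ, Integrable (fun z : ℝ => |z| ^ k * Real.exp |z|) μ := by
    intro k
    refine moq_int hexp (by fun_prop) (k.factorial) 2 fun z => ?_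
    rw [abs_of_nonneg (by positivity), ← ez z, ← mul_assoc]
    exact mul_le_mul_of_nonneg_right (pw z k) (Real.exp_pos _).le
  have i4 : Integrable (fun z : ℝ => (|z| + 1) ^ 4 * Real.exp |z|) μ := by
    refine moq_int hexp (by fun_prop) (24 * Real.exp 1) 2 fun z => ?_
    have h := Real.pow_div_factorial_le_exp (|z| + 1) (by positivity) 4
    rw [div_le_iff₀ (by positivity), Real.exp_add] at h
    have h24 : ((Nat.factorial 4 : ℕ) : ℝ) = 24 := by norm_num [Nat.factorial]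
    rw [h24] at h
    rw [abs_of_nonneg (by positivity), ← ez z]
    nlinarith [Real.exp_pos |z|, Real.exp_pos (1 : ℝ)]
  have ip : ∀ k : ℕ, Integrable (fun z : ℝ => z ^ k) μ := by
    intro k
    refine moq_int hexp (by fun_prop) (k.factorial) 1 fun z => ?_
    rw [abs_pow, one_mul]
    exact pw z k
  have ipe : ∀ (t : ℝ), |t| ≤ 1 → ∀ k : ℕ,
      Integrable (fun z : ℝ => z ^ k * Real.exp (t * z)) μ := by
    intro t ht k
    refine (iz k).mono' (by fun_prop) (Filter.Eventually.of_forall fun z => ?_)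
    rw [Real.norm_eq_abs, abs_mul, abs_pow, abs_of_pos (Real.exp_pos _)]
    refine mul_le_mul_of_nonneg_left (Real.exp_le_exp.2 ?_) (by positivity)
    calc t * z ≤ |t * z| := le_abs_self _
      _ = |t| * |z| := abs_mul _ _
      _ ≤ 1 * |z| := mul_le_mul_of_nonneg_right ht (abs_nonneg z)
      _ = |z| := one_mul _
  have iA := iz 3
  set A : ℝ := ∫ z, |z| ^ 3 * Real.exp |z| ∂μ with hA
  set B : ℝ := ∫ z, (|z| + 1) ^ 4 * Real.exp |z| ∂μ with hB
  have hexpt : ∀ t z : ℝ, |t| ≤ 1 → Real.exp |t * z| ≤ Real.exp |z| := by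
    intro t z ht
    refine Real.exp_le_exp.2 ?_
    rw [abs_mul]
    calc |t| * |z| ≤ 1 * |z| := mul_le_mul_of_nonneg_right ht (abs_nonneg z)
      _ = |z| := one_mul _
  refine ⟨A, B, integral_nonneg fun z => by positivity, integral_nonneg fun z => by positivity, ?_⟩
  intro t ht
  have j0 : Integrable (fun z : ℝ => Real.exp (t * z)) μ := hexp t
  have jz : Integrable (fun z : ℝ => z) μ := by simpa using ip 1
  have j1 : Integrable (fun z : ℝ => z * Real.exp (t * z)) μ := by simpa using ipe t ht 1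
  have j2 : Integrable (fun z : ℝ => z ^ 2 * Real.exp (t * z)) μ := ipe t ht 2
  have hone : ∫ _z : ℝ, (1 : ℝ) ∂μ = 1 := by simp
  refine ⟨?_, ?_, ?_, ?_, j1, j2, ?_⟩
  · -- 1 ≤ M
    have h : ∫ z, (1 + t * z) ∂μ ≤ ∫ z, Real.exp (t * z) ∂μ := by
      refine integral_mono ((integrable_const 1).add (jz.const_mul t)) j0 fun z => ?_
      have := Real.add_one_le_exp (t * z)
      simp only
      linarith
    rw [integral_add (integrable_const 1) (jz.const_mul t), hone, integral_const_mul, h1] at h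
    linarith
  · have e : (∫ z, Real.exp (t * z) ∂μ) - 1 - t ^ 2 / 2 =
        ∫ z, (Real.exp (t * z) - 1 - t * z - (t * z) ^ 2 / 2) ∂μ := by
      have k1 : Integrable (fun z : ℝ => (t * z) ^ 2 / 2) μ := by
        have := (ip 2).const_mul (t ^ 2 / 2)
        refine this.congr (Filter.Eventually.of_forall fun z => ?_)
        simp only; ring
      have s1 : Integrable (fun z : ℝ => Real.exp (t * z) - 1) μ := j0.sub (integrable_const 1)
      have s2 : Integrable (fun z : ℝ => Real.exp (t * z) - 1 - t * z) μ :=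
        s1.sub (jz.const_mul t)
      rw [integral_sub s2 k1, integral_sub s1 (jz.const_mul t),
        integral_sub j0 (integrable_const 1), hone, integral_const_mul, h1]
      have : ∫ z, (t * z) ^ 2 / 2 ∂μ = t ^ 2 / 2 := by
        have h3 : (fun z : ℝ => (t * z) ^ 2 / 2) = fun z => t ^ 2 / 2 * z ^ 2 := by
          funext z; ring
        rw [h3, integral_const_mul, h2, mul_one]
      rw [this]; ring
    rw [e]
    refine (abs_integral_le_integral_abs).trans ?_
    calc ∫ z, |Real.exp (t * z) - 1 - t * z - (t * z) ^ 2 / 2| ∂μ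
        ≤ ∫ z, |t| ^ 3 * (|z| ^ 3 * Real.exp |z|) ∂μ := by
          refine integral_mono_of_nonneg (Filter.Eventually.of_forall fun z => abs_nonneg _)
            (iA.const_mul _) (Filter.Eventually.of_forall fun z => ?_)
          refine (moq_e3 (t * z)).trans ?_
          rw [show |t * z| ^ 3 = |t| ^ 3 * |z| ^ 3 by rw [abs_mul, mul_pow], mul_assoc]
          exact mul_le_mul_of_nonneg_left
            (mul_le_mul_of_nonneg_left (hexpt t z ht) (by positivity)) (by positivity)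
      _ = A * |t| ^ 3 := by rw [integral_const_mul, mul_comm]
  · have e : (∫ z, z * Real.exp (t * z) ∂μ) - t =
        ∫ z, z * (Real.exp (t * z) - 1 - t * z) ∂μ := by
      have h3 : (fun z : ℝ => z * (Real.exp (t * z) - 1 - t * z)) =
          fun z => z * Real.exp (t * z) - z - t * z ^ 2 := by funext z; ring
      have s1 : Integrable (fun z : ℝ => z * Real.exp (t * z) - z) μ := j1.sub jz
      rw [h3, integral_sub s1 ((ip 2).const_mul t), integral_sub j1 jz,
        integral_const_mul, h1, h2]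
      ring
    rw [e]
    refine (abs_integral_le_integral_abs).trans ?_
    calc ∫ z, |z * (Real.exp (t * z) - 1 - t * z)| ∂μ
        ≤ ∫ z, |t| ^ 2 * (|z| ^ 3 * Real.exp |z|) ∂μ := by
          refine integral_mono_of_nonneg (Filter.Eventually.of_forall fun z => abs_nonneg _)
            (iA.const_mul _) (Filter.Eventually.of_forall fun z => ?_)
          have h4 := moq_e2 (t * z)
          have h5 := hexpt t z ht
          calc |z * (Real.exp (t * z) - 1 - t * z)|
              = |z| * |Real.exp (t * z) - 1 - t * z| := abs_mul _ _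
            _ ≤ |z| * (|t * z| ^ 2 * Real.exp |t * z|) :=
                mul_le_mul_of_nonneg_left h4 (abs_nonneg z)
            _ ≤ |z| * (|t * z| ^ 2 * Real.exp |z|) :=
                mul_le_mul_of_nonneg_left (mul_le_mul_of_nonneg_left h5 (by positivity))
                  (abs_nonneg z)
            _ = |t| ^ 2 * (|z| ^ 3 * Real.exp |z|) := by rw [abs_mul]; ring
      _ = A * |t| ^ 2 := by rw [integral_const_mul, mul_comm]
  · have e : (∫ z, z ^ 2 * Real.exp (t * z) ∂μ) - 1 =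
        ∫ z, z ^ 2 * (Real.exp (t * z) - 1) ∂μ := by
      have h3 : (fun z : ℝ => z ^ 2 * (Real.exp (t * z) - 1)) =
          fun z => z ^ 2 * Real.exp (t * z) - z ^ 2 := by funext z; ring
      rw [h3, integral_sub j2 (ip 2), h2]
    rw [e]
    refine (abs_integral_le_integral_abs).trans ?_
    calc ∫ z, |z ^ 2 * (Real.exp (t * z) - 1)| ∂μ
        ≤ ∫ z, |t| * (|z| ^ 3 * Real.exp |z|) ∂μ := by
          refine integral_mono_of_nonneg (Filter.Eventually.of_forall fun z => abs_nonneg _)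
            (iA.const_mul _) (Filter.Eventually.of_forall fun z => ?_)
          have h4 := moq_e1 (t * z)
          have h5 := hexpt t z ht
          calc |z ^ 2 * (Real.exp (t * z) - 1)|
              = |z| ^ 2 * |Real.exp (t * z) - 1| := by rw [abs_mul, abs_pow]
            _ ≤ |z| ^ 2 * (|t * z| * Real.exp |t * z|) :=
                mul_le_mul_of_nonneg_left h4 (by positivity)
            _ ≤ |z| ^ 2 * (|t * z| * Real.exp |z|) :=
                mul_le_mul_of_nonneg_left (mul_le_mul_of_nonneg_left h5 (by positivity))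
                  (by positivity)
            _ = |t| * (|z| ^ 3 * Real.exp |z|) := by rw [abs_mul]; ring
      _ = A * |t| := by rw [integral_const_mul, mul_comm]
  · intro a ha
    refine integral_mono_of_nonneg (Filter.Eventually.of_forall fun z => by positivity) i4
      (Filter.Eventually.of_forall fun z => ?_)
    have h6 : (z + a) ^ 4 ≤ (|z| + 1) ^ 4 := by
      have h7 : |z + a| ≤ |z| + 1 := (abs_add_le z a).trans (by linarith)
      calc (z + a) ^ 4 = |z + a| ^ 4 := (Even.pow_abs (by decide) _).symm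
        _ ≤ (|z| + 1) ^ 4 := pow_le_pow_left₀ (abs_nonneg _) h7 4
    have h8 : Real.exp (t * z) ≤ Real.exp |z| :=
      (Real.exp_le_exp.2 (le_abs_self _)).trans (hexpt t z ht)
    exact mul_le_mul h6 h8 (Real.exp_pos _).le (by positivity)

theorem moq_tl (μ : Measure ℝ) [IsProbabilityMeasure μ] (lam m γ : ℝ) (g : ℝ → ℝ)
    (hg : Continuous g) :
    ∫ z, g z ∂((μ.map (fun z => -2 * lam * (z + m * lam))).tilted fun z => γ / 2 * z) =
      (∫ z, g (-2 * lam * (z + m * lam)) * Real.exp (-(γ * lam) * z) ∂μ) /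
        ∫ z, Real.exp (-(γ * lam) * z) ∂μ := by
  have hT : Continuous (fun z : ℝ => -2 * lam * (z + m * lam)) := by fun_prop
  have hZ : ∫ x, Real.exp (γ / 2 * x) ∂(μ.map (fun z => -2 * lam * (z + m * lam))) =
      Real.exp (-(γ * m * lam ^ 2)) * ∫ z, Real.exp (-(γ * lam) * z) ∂μ := by
    rw [integral_map hT.aemeasurable (by fun_prop), ← integral_const_mul]
    refine integral_congr_ae (Filter.Eventually.of_forall fun z => ?_)
    simp only
    rw [← Real.exp_add]
    ring_nf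
  rw [integral_tilted, hZ, integral_map hT.aemeasurable (by fun_prop)]
  have hE : ∀ z : ℝ, (Real.exp (γ / 2 * (-2 * lam * (z + m * lam))) /
      (Real.exp (-(γ * m * lam ^ 2)) * ∫ z, Real.exp (-(γ * lam) * z) ∂μ)) •
        g (-2 * lam * (z + m * lam)) = (∫ z, Real.exp (-(γ * lam) * z) ∂μ)⁻¹ *
      (g (-2 * lam * (z + m * lam)) * Real.exp (-(γ * lam) * z)) := by
    intro z
    have h1 : Real.exp (γ / 2 * (-2 * lam * (z + m * lam))) =
        Real.exp (-(γ * m * lam ^ 2)) * Real.exp (-(γ * lam) * z) := by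
      rw [← Real.exp_add]; ring_nf
    rw [h1, mul_div_mul_left _ _ (Real.exp_ne_zero _), smul_eq_mul]
    ring
  simp only [hE]
  rw [integral_const_mul]
  ring

theorem moq_Mo (μ : Measure ℝ) [IsProbabilityMeasure μ] (lam m u : ℝ) :
    Pool.Agent.H55.CG.Mo (μ.map (fun z => -2 * lam * (z + m * lam))) u =
      Real.exp (-(2 * u * m * lam ^ 2)) * ∫ z, Real.exp ((-2 * lam * u) * z) ∂μ := by
  have hT : Continuous (fun z : ℝ => -2 * lam * (z + m * lam)) := by fun_prop
  unfold Pool.Agent.H55.CG.Mo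
  rw [integral_map hT.aemeasurable (by fun_prop), ← integral_const_mul]
  refine integral_congr_ae (Filter.Eventually.of_forall fun z => ?_)
  simp only
  rw [← Real.exp_add]
  ring_nf

/-- bounds for `M` by exponentials -/
theorem moq_n1 (A M t : ℝ) (hA : 0 ≤ A) (ht : |t| ≤ 1) (g1 : 1 ≤ M)
    (g2 : |M - 1 - t ^ 2 / 2| ≤ A * |t| ^ 3) :
    Real.exp (t ^ 2 / 2 - (A + (1 / 2 + A) ^ 2) * |t| ^ 3) ≤ M ∧
      M ≤ Real.exp (t ^ 2 / 2 + (A + (1 / 2 + A) ^ 2) * |t| ^ 3) := by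
  have g2' := abs_le.1 g2
  have ht0 : 0 ≤ |t| := abs_nonneg t
  have hC : (A + (1 / 2 + A) ^ 2) * |t| ^ 3 = A * |t| ^ 3 + (1 / 2 + A) ^ 2 * |t| ^ 3 := by ring
  have hn : 0 ≤ (1 / 2 + A) ^ 2 * |t| ^ 3 := by positivity
  constructor
  · have hx0 : 0 ≤ M - 1 := by linarith
    have hx1 : M - 1 ≤ (1 / 2 + A) * |t| ^ 2 := by
      have h5 : |t| ^ 3 ≤ |t| ^ 2 := pow_le_pow_of_le_one ht0 ht (by norm_num)
      have h6 : t ^ 2 = |t| ^ 2 := (sq_abs t).symm
      have h5' := mul_le_mul_of_nonneg_left h5 hA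
      have h7 : (1 / 2 + A) * |t| ^ 2 = |t| ^ 2 / 2 + A * |t| ^ 2 := by ring
      rw [h7]
      rw [h6] at g2'
      linarith [g2'.2]
    have hx2 : (M - 1) ^ 2 ≤ (1 / 2 + A) ^ 2 * |t| ^ 3 := by
      have h5 : |t| ^ 4 ≤ |t| ^ 3 := pow_le_pow_of_le_one ht0 ht (by norm_num)
      calc (M - 1) ^ 2 ≤ ((1 / 2 + A) * |t| ^ 2) ^ 2 := pow_le_pow_left₀ hx0 hx1 2
        _ = (1 / 2 + A) ^ 2 * |t| ^ 4 := by ring
        _ ≤ (1 / 2 + A) ^ 2 * |t| ^ 3 := mul_le_mul_of_nonneg_left h5 (by positivity)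
    have h7 : t ^ 2 / 2 - (A + (1 / 2 + A) ^ 2) * |t| ^ 3 ≤ (M - 1) - (M - 1) ^ 2 := by
      rw [hC]; linarith [g2'.1]
    have hM0 : 0 < M := by linarith
    have h8 : (M - 1) - (M - 1) ^ 2 ≤ 1 - M⁻¹ := by
      have h9 : 1 - M⁻¹ = (M - 1) / M := by field_simp
      rw [h9, le_div_iff₀ hM0]
      have h10 : 0 ≤ (M - 1) ^ 3 := pow_nonneg hx0 3
      have h11 : (M - 1) - ((M - 1) - (M - 1) ^ 2) * M = (M - 1) ^ 3 := by ring
      linarith
    have h10 := Real.one_sub_inv_le_log_of_pos hM0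
    calc Real.exp (t ^ 2 / 2 - (A + (1 / 2 + A) ^ 2) * |t| ^ 3) ≤ Real.exp (Real.log M) :=
          Real.exp_le_exp.2 (by linarith)
      _ = M := Real.exp_log hM0
  · have h := Real.add_one_le_exp (t ^ 2 / 2 + (A + (1 / 2 + A) ^ 2) * |t| ^ 3)
    rw [hC] at h
    rw [hC]
    linarith [g2'.2]

/-- the exponents -/
theorem moq_n2 (C1 lam L m u : ℝ) (hC10 : 0 ≤ C1) (hlam : 0 < lam) (hll : lam ^ 2 ≤ lam)
    (hm : 1 / 2 ≤ m) (hm2 : m ≤ 1) (hu1 : -1 ≤ u) (hu2 : u ≤ 2) (hL0 : 0 ≤ L)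
    (hL1 : 1 ≤ L * lam ^ 2) (hL2 : L * lam ^ 2 ≤ 1 + lam ^ 2) (hL3 : L * lam ^ 2 ≤ 2) :
    |L * (-(2 * u * m * lam ^ 2) + (-2 * lam * u) ^ 2 / 2) - (2 * u ^ 2 - 2 * u * m)| ≤
      12 * lam ∧ L * (C1 * |-2 * lam * u| ^ 3) ≤ 128 * C1 * lam := by
  have hu : |u| ≤ 2 := abs_le.2 ⟨by linarith, hu2⟩
  have htabs : |-2 * lam * u| = 2 * lam * |u| := by
    rw [abs_mul, abs_mul, abs_neg, abs_two, abs_of_pos hlam]
  constructor
  · have e : L * (-(2 * u * m * lam ^ 2) + (-2 * lam * u) ^ 2 / 2) - (2 * u ^ 2 - 2 * u * m) =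
        (L * lam ^ 2 - 1) * (2 * u ^ 2 - 2 * u * m) := by ring
    rw [e, abs_mul, abs_of_nonneg (by linarith : 0 ≤ L * lam ^ 2 - 1)]
    have h11 : |2 * u ^ 2 - 2 * u * m| ≤ 12 := by
      have h1 : |u ^ 2| ≤ 4 := by
        rw [abs_pow]
        calc |u| ^ 2 ≤ 2 ^ 2 := pow_le_pow_left₀ (abs_nonneg _) hu 2
          _ = 4 := by norm_num
      have h2 : |u * m| ≤ 2 := by
        rw [abs_mul, abs_of_nonneg (by linarith : 0 ≤ m)]
        calc |u| * m ≤ 2 * 1 := mul_le_mul hu hm2 (by linarith) (by norm_num)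
          _ = 2 := by norm_num
      have h1' := abs_le.1 h1
      have h2' := abs_le.1 h2
      rw [abs_le]
      constructor <;> linarith [h1'.1, h1'.2, h2'.1, h2'.2]
    calc (L * lam ^ 2 - 1) * |2 * u ^ 2 - 2 * u * m| ≤ lam ^ 2 * 12 :=
          mul_le_mul (by linarith) h11 (abs_nonneg _) (by positivity)
      _ ≤ 12 * lam := by linarith
  · have ht3 : |-2 * lam * u| ^ 3 ≤ 64 * lam ^ 3 := by
      rw [htabs]
      have : 2 * lam * |u| ≤ 4 * lam := by
        calc 2 * lam * |u| ≤ 2 * lam * 2 := mul_le_mul_of_nonneg_left hu (by linarith)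
          _ = 4 * lam := by ring
      calc (2 * lam * |u|) ^ 3 ≤ (4 * lam) ^ 3 := pow_le_pow_left₀ (by positivity) this 3
        _ = 64 * lam ^ 3 := by ring
    calc L * (C1 * |-2 * lam * u| ^ 3) ≤ L * (C1 * (64 * lam ^ 3)) :=
          mul_le_mul_of_nonneg_left (mul_le_mul_of_nonneg_left ht3 hC10) hL0
      _ = 64 * C1 * lam * (L * lam ^ 2) := by ring
      _ ≤ 64 * C1 * lam * 2 := mul_le_mul_of_nonneg_left hL3 (by positivity)
      _ = 128 * C1 * lam := by ring

/-- the quotients -/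
theorem moq_n3 (A M M1 M2 t : ℝ) (hA : 0 ≤ A) (ht : |t| ≤ 1) (g1 : 1 ≤ M)
    (g2 : |M - 1 - t ^ 2 / 2| ≤ A * |t| ^ 3) (g3 : |M1 - t| ≤ A * |t| ^ 2)
    (g4 : |M2 - 1| ≤ A * |t|) :
    |M1 / M - t| ≤ (2 * A + 1) * |t| ^ 2 ∧ |M2 / M - 1| ≤ (2 * A + 1) * |t| := by
  have hM0 : 0 < M := by linarith
  have ht0 : 0 ≤ |t| := abs_nonneg t
  have g2' := abs_le.1 g2
  have hx0 : 0 ≤ M - 1 := by linarith
  have ht21 : |t| ^ 2 ≤ |t| := by
    calc |t| ^ 2 = |t| * |t| := by ring
      _ ≤ |t| * 1 := mul_le_mul_of_nonneg_left ht ht0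
      _ = |t| := by ring
  have hMm : M - 1 ≤ (1 / 2 + A) * |t| ^ 2 := by
    have h5 : |t| ^ 3 ≤ |t| ^ 2 := pow_le_pow_of_le_one ht0 ht (by norm_num)
    have h6 : t ^ 2 = |t| ^ 2 := (sq_abs t).symm
    have h5' := mul_le_mul_of_nonneg_left h5 hA
    have h7 : (1 / 2 + A) * |t| ^ 2 = |t| ^ 2 / 2 + A * |t| ^ 2 := by ring
    rw [h7]
    rw [h6] at g2'
    linarith [g2'.2]
  have hs : 0 ≤ |t| ^ 2 := by positivity
  constructor
  · have e : M1 / M - t = (M1 - t - t * (M - 1)) / M := by field_simp; ring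
    rw [e, abs_div, abs_of_pos hM0, div_le_iff₀ hM0]
    have h5 : |M1 - t - t * (M - 1)| ≤ A * |t| ^ 2 + |t| * (M - 1) := by
      calc |M1 - t - t * (M - 1)| ≤ |M1 - t| + |t * (M - 1)| := abs_sub _ _
        _ ≤ A * |t| ^ 2 + |t| * (M - 1) := by
          rw [abs_mul, abs_of_nonneg hx0]
          linarith
    have h6 : |t| * (M - 1) ≤ (1 / 2 + A) * |t| ^ 2 := by
      calc |t| * (M - 1) ≤ 1 * (M - 1) := mul_le_mul_of_nonneg_right ht hx0
        _ ≤ (1 / 2 + A) * |t| ^ 2 := by linarith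
    have h7 : (2 * A + 1) * |t| ^ 2 ≤ (2 * A + 1) * |t| ^ 2 * M :=
      le_mul_of_one_le_right (by positivity) g1
    have h8 : (2 * A + 1) * |t| ^ 2 = A * |t| ^ 2 + (1 / 2 + A) * |t| ^ 2 + |t| ^ 2 / 2 := by ring
    linarith
  · have e : M2 / M - 1 = (M2 - 1 - (M - 1)) / M := by field_simp; ring
    rw [e, abs_div, abs_of_pos hM0, div_le_iff₀ hM0]
    have h5 : |M2 - 1 - (M - 1)| ≤ A * |t| + (M - 1) := by
      calc |M2 - 1 - (M - 1)| ≤ |M2 - 1| + |M - 1| := abs_sub _ _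
        _ ≤ A * |t| + (M - 1) := by
          rw [abs_of_nonneg hx0]
          linarith
    have h7 : (2 * A + 1) * |t| ≤ (2 * A + 1) * |t| * M :=
      le_mul_of_one_le_right (by positivity) g1
    have h9 : (1 / 2 + A) * |t| ^ 2 ≤ (1 / 2 + A) * |t| :=
      mul_le_mul_of_nonneg_left ht21 (by positivity)
    have h8 : (2 * A + 1) * |t| = A * |t| + (1 / 2 + A) * |t| + |t| / 2 := by ring
    linarith

/-- the first and second moments -/
theorem moq_n4 (D lam L m γ R1 R2 : ℝ) (hD1 : 1 ≤ D) (hlam : 0 < lam) (hll : lam ^ 2 ≤ lam)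
    (hl1 : lam ≤ 1) (hDl : 2 * D * lam ≤ 1) (hm : 1 / 2 ≤ m) (hm2 : m ≤ 1) (hγ1 : 1 / 2 ≤ γ)
    (hγ2 : γ ≤ 2 / 3) (hL0 : 0 ≤ L) (hL1 : 1 ≤ L * lam ^ 2) (hL2 : L * lam ^ 2 ≤ 1 + lam ^ 2)
    (hL3 : L * lam ^ 2 ≤ 2) (k1 : |R1 - -(γ * lam)| ≤ D * lam ^ 2) (k2 : |R2 - 1| ≤ D * lam) :
    L * |-(2 * lam) * (R1 + m * lam)| ≤ 4 ∧
    |L * (4 * lam ^ 2 * (R2 + 2 * m * lam * R1 + m ^ 2 * lam ^ 2)) - 4| ≤
      (28 + 24 * D) * lam := by
  have k1' := abs_le.1 k1
  have k2' := abs_le.1 k2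
  have hγl : γ * lam ≤ 2 / 3 * lam := mul_le_mul_of_nonneg_right hγ2 hlam.le
  have hγl2 : 1 / 2 * lam ≤ γ * lam := mul_le_mul_of_nonneg_right hγ1 hlam.le
  have hml : m * lam ≤ 1 * lam := mul_le_mul_of_nonneg_right hm2 hlam.le
  have hml2 : 1 / 2 * lam ≤ m * lam := mul_le_mul_of_nonneg_right hm hlam.le
  constructor
  · rw [abs_mul, abs_neg, abs_of_pos (by positivity : 0 < 2 * lam)]
    have h9 : |R1 + m * lam| ≤ lam / 2 + D * lam ^ 2 := by
      rw [abs_le]; constructor <;> linarith [k1'.1, k1'.2]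
    calc L * (2 * lam * |R1 + m * lam|) ≤ L * (2 * lam * (lam / 2 + D * lam ^ 2)) :=
          mul_le_mul_of_nonneg_left (mul_le_mul_of_nonneg_left h9 (by positivity)) hL0
      _ = (L * lam ^ 2) * (1 + 2 * D * lam) := by ring
      _ ≤ 2 * 2 := mul_le_mul hL3 (by linarith) (by positivity) (by norm_num)
      _ = 4 := by norm_num
  · set E : ℝ := (R2 - 1) + 2 * m * lam * R1 + m ^ 2 * lam ^ 2 with hE
    have hE1 : |E| ≤ (3 * D + 3) * lam := by
      have f1 : |R1| ≤ 1 + D := by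
        have h4 : D * lam ^ 2 ≤ D * 1 := mul_le_mul_of_nonneg_left (by linarith) (by linarith)
        rw [abs_le]; constructor <;> linarith [k1'.1, k1'.2]
      have f2 : |2 * m * lam * R1| ≤ 2 * lam * (1 + D) := by
        rw [abs_mul, abs_of_nonneg (by positivity : 0 ≤ 2 * m * lam)]
        exact mul_le_mul (by linarith) f1 (abs_nonneg _) (by positivity)
      have f3 : |m ^ 2 * lam ^ 2| ≤ lam := by
        rw [abs_of_nonneg (by positivity)]
        have h1 : m ^ 2 ≤ 1 := pow_le_one₀ (by linarith) hm2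
        calc m ^ 2 * lam ^ 2 ≤ 1 * lam ^ 2 := mul_le_mul_of_nonneg_right h1 (by positivity)
          _ ≤ lam := by linarith
      calc |E| ≤ |(R2 - 1) + 2 * m * lam * R1| + |m ^ 2 * lam ^ 2| := abs_add_le _ _
        _ ≤ |R2 - 1| + |2 * m * lam * R1| + |m ^ 2 * lam ^ 2| := by
            linarith [abs_add_le (R2 - 1) (2 * m * lam * R1)]
        _ ≤ D * lam + 2 * lam * (1 + D) + lam := by linarith
        _ = (3 * D + 3) * lam := by ring
    have e3 : L * (4 * lam ^ 2 * (R2 + 2 * m * lam * R1 + m ^ 2 * lam ^ 2)) - 4 =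
        4 * (L * lam ^ 2 - 1) + 4 * (L * lam ^ 2) * E := by rw [hE]; ring
    rw [e3]
    have f4 : |4 * (L * lam ^ 2) * E| ≤ 8 * ((3 * D + 3) * lam) := by
      rw [abs_mul, abs_of_nonneg (by positivity : 0 ≤ 4 * (L * lam ^ 2))]
      exact mul_le_mul (by linarith) hE1 (abs_nonneg _) (by norm_num)
    have f5 : |4 * (L * lam ^ 2 - 1)| ≤ 4 * lam := by
      rw [abs_of_nonneg (by linarith)]; linarith
    calc |4 * (L * lam ^ 2 - 1) + 4 * (L * lam ^ 2) * E| ≤ 4 * lam + 8 * ((3 * D + 3) * lam) :=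
          (abs_add_le _ _).trans (by linarith)
      _ = (28 + 24 * D) * lam := by ring

theorem pf_MOQ : T_MOQ := by
  intro μ hμ hexp h1 h2
  obtain ⟨A, B, hA, hB, hb⟩ := moq_base μ hexp h1 h2
  have hC10 : 0 ≤ A + (1 / 2 + A) ^ 2 := by positivity
  set C1 : ℝ := A + (1 / 2 + A) ^ 2 with hC1
  have hD1 : 1 ≤ 2 * A + 1 := by linarith
  set D : ℝ := 2 * A + 1 with hD
  refine ⟨12 + 128 * C1 + (28 + 24 * D) + 32 * B + 1, 1 / (4 * (D + 1)), by linarith,
    by positivity, ?_⟩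
  intro lam m hlam hlam2 hm hm2
  have hlamD : lam * (4 * (D + 1)) < 1 := by rwa [lt_div_iff₀ (by positivity)] at hlam2
  have hlamD2 : 0 ≤ lam * D := by positivity
  have hlam4 : 4 * lam < 1 := by linarith
  have hDl : 2 * D * lam ≤ 1 := by linarith
  have hlam1 : lam ≤ 1 := by linarith
  -- the number of sites
  set L : ℝ := ((⌈1 / lam ^ 2⌉₊ : ℕ) : ℝ) with hL
  have hl2 : 0 < lam ^ 2 := by positivity
  have hL1 : 1 ≤ L * lam ^ 2 := by
    have h := Nat.le_ceil (1 / lam ^ 2)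
    rwa [div_le_iff₀ hl2] at h
  have hL2 : L * lam ^ 2 ≤ 1 + lam ^ 2 := by
    have h := Nat.ceil_lt_add_one (show 0 ≤ 1 / lam ^ 2 by positivity)
    have h3 : L * lam ^ 2 ≤ (1 / lam ^ 2 + 1) * lam ^ 2 :=
      mul_le_mul_of_nonneg_right h.le hl2.le
    have h4 : (1 / lam ^ 2 + 1) * lam ^ 2 = 1 + lam ^ 2 := by field_simp
    linarith
  have hll : lam ^ 2 ≤ lam := by
    calc lam ^ 2 = lam * lam := by ring
      _ ≤ lam * 1 := mul_le_mul_of_nonneg_left hlam1 hlam.le
      _ = lam := by ring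
  have hL3 : L * lam ^ 2 ≤ 2 := by linarith
  have hL0 : 0 ≤ L := by positivity
  have hD0 : 0 ≤ D := by linarith
  refine ⟨?_, ?_⟩
  · intro u hu1 hu2
    have hu : |u| ≤ 2 := abs_le.2 ⟨by linarith, hu2⟩
    have ht4 : |-2 * lam * u| ≤ 1 := by
      rw [abs_mul, abs_mul, abs_neg, abs_two, abs_of_pos hlam]
      calc 2 * lam * |u| ≤ 2 * lam * 2 := mul_le_mul_of_nonneg_left hu (by linarith)
        _ ≤ 1 := by linarith
    obtain ⟨g1, g2, -⟩ := hb (-2 * lam * u) ht4
    obtain ⟨hMlo, hMup⟩ := moq_n1 A _ _ hA ht4 g1 g2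
    obtain ⟨p1, p2⟩ := moq_n2 C1 lam L m u hC10 hlam hll hm hm2 hu1 hu2 hL0 hL1 hL2 hL3
    rw [moq_Mo]
    rw [← hC1] at hMlo hMup
    have p1' := abs_le.1 p1
    have hpw : ∀ x : ℝ, Real.exp x ^ ⌈1 / lam ^ 2⌉₊ = Real.exp (L * x) := by
      intro x; rw [← Real.exp_nat_mul]
    have hCl : (12 + 128 * C1) * lam ≤
        (12 + 128 * C1 + (28 + 24 * D) + 32 * B + 1) * lam :=
      mul_le_mul_of_nonneg_right (by linarith) hlam.le
    have he0 : 0 < Real.exp (-(2 * u * m * lam ^ 2)) := Real.exp_pos _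
    constructor
    · calc Real.exp (2 * u ^ 2 - 2 * u * m -
            (12 + 128 * C1 + (28 + 24 * D) + 32 * B + 1) * lam)
          ≤ Real.exp (L * (-(2 * u * m * lam ^ 2) +
              ((-2 * lam * u) ^ 2 / 2 - C1 * |-2 * lam * u| ^ 3))) := by
            refine Real.exp_le_exp.2 ?_
            have e : L * (-(2 * u * m * lam ^ 2) +
                ((-2 * lam * u) ^ 2 / 2 - C1 * |-2 * lam * u| ^ 3)) =
                L * (-(2 * u * m * lam ^ 2) + (-2 * lam * u) ^ 2 / 2) -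
                  L * (C1 * |-2 * lam * u| ^ 3) := by ring
            rw [e]
            linarith [p1'.1]
        _ = (Real.exp (-(2 * u * m * lam ^ 2)) *
              Real.exp ((-2 * lam * u) ^ 2 / 2 - C1 * |-2 * lam * u| ^ 3)) ^
              ⌈1 / lam ^ 2⌉₊ := by rw [← Real.exp_add, hpw]
        _ ≤ _ := pow_le_pow_left₀ (by positivity) (mul_le_mul_of_nonneg_left hMlo he0.le) _
    · refine (pow_le_pow_left₀ (mul_nonneg he0.le (by linarith))
              (mul_le_mul_of_nonneg_left hMup he0.le) _).trans ?_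
      rw [← Real.exp_add, hpw]
      refine Real.exp_le_exp.2 ?_
      have e : L * (-(2 * u * m * lam ^ 2) +
          ((-2 * lam * u) ^ 2 / 2 + C1 * |-2 * lam * u| ^ 3)) =
          L * (-(2 * u * m * lam ^ 2) + (-2 * lam * u) ^ 2 / 2) +
            L * (C1 * |-2 * lam * u| ^ 3) := by ring
      rw [e]
      linarith [p1'.2]
  · intro γ hγ1 hγ2
    have htabs : |-(γ * lam)| = γ * lam := by rw [abs_neg, abs_of_nonneg (by positivity)]
    have htl : |-(γ * lam)| ≤ lam := by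
      rw [htabs]
      calc γ * lam ≤ 1 * lam := mul_le_mul_of_nonneg_right (by linarith) hlam.le
        _ = lam := one_mul _
    have ht1 : |-(γ * lam)| ≤ 1 := by linarith
    obtain ⟨g1, g2, g3, g4, j1, j2, g5⟩ := hb (-(γ * lam)) ht1
    have j0 := hexp (-(γ * lam))
    obtain ⟨k1, k2⟩ := moq_n3 A _ _ _ _ hA ht1 g1 g2 g3 g4
    have hM0 : 0 < ∫ z, Real.exp (-(γ * lam) * z) ∂μ := by linarith
    have ht2 : |-(γ * lam)| ^ 2 ≤ lam ^ 2 := pow_le_pow_left₀ (abs_nonneg _) htl 2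
    have k1l := k1.trans (mul_le_mul_of_nonneg_left ht2 hD0)
    have k2l := k2.trans (mul_le_mul_of_nonneg_left htl hD0)
    obtain ⟨q1, q2⟩ := moq_n4 D lam L m γ _ _ hD1 hlam hll hlam1 hDl hm hm2 hγ1 hγ2 hL0 hL1 hL2
      hL3 k1l k2l
    refine ⟨?_, ?_, ?_⟩
    · rw [moq_tl μ lam m γ (fun z => z) continuous_id]
      have e : ∫ z, (-2 * lam * (z + m * lam)) * Real.exp (-(γ * lam) * z) ∂μ =
          -2 * lam * ((∫ z, z * Real.exp (-(γ * lam) * z) ∂μ) +
            m * lam * ∫ z, Real.exp (-(γ * lam) * z) ∂μ) := by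
        have h3 : (fun z : ℝ => (-2 * lam * (z + m * lam)) * Real.exp (-(γ * lam) * z)) =
            fun z => -2 * lam * (z * Real.exp (-(γ * lam) * z) +
              m * lam * Real.exp (-(γ * lam) * z)) := by
          funext z; ring
        rw [h3, integral_const_mul, integral_add j1 (j0.const_mul _), integral_const_mul]
      rw [e]
      have e2 : ∀ x y : ℝ, 0 < y → -2 * lam * (x + m * lam * y) / y =
          -(2 * lam) * (x / y + m * lam) := by
        intro x y hy; field_simp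
      rw [e2 _ _ hM0]
      exact q1
    · rw [moq_tl μ lam m γ (fun z => z ^ 2) (by fun_prop)]
      have e : ∫ z, (-2 * lam * (z + m * lam)) ^ 2 * Real.exp (-(γ * lam) * z) ∂μ =
          4 * lam ^ 2 * ((∫ z, z ^ 2 * Real.exp (-(γ * lam) * z) ∂μ) +
            2 * m * lam * (∫ z, z * Real.exp (-(γ * lam) * z) ∂μ) +
            m ^ 2 * lam ^ 2 * ∫ z, Real.exp (-(γ * lam) * z) ∂μ) := by
        have h3 : (fun z : ℝ => (-2 * lam * (z + m * lam)) ^ 2 * Real.exp (-(γ * lam) * z)) =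
            fun z => 4 * lam ^ 2 * ((z ^ 2 * Real.exp (-(γ * lam) * z) +
              2 * m * lam * (z * Real.exp (-(γ * lam) * z))) +
              m ^ 2 * lam ^ 2 * Real.exp (-(γ * lam) * z)) := by
          funext z; ring
        have s1 : Integrable (fun z : ℝ => z ^ 2 * Real.exp (-(γ * lam) * z) +
            2 * m * lam * (z * Real.exp (-(γ * lam) * z))) μ := j2.add (j1.const_mul _)
        rw [h3, integral_const_mul, integral_add s1 (j0.const_mul _),
          integral_add j2 (j1.const_mul _), integral_const_mul, integral_const_mul]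
      rw [e]
      have e2 : ∀ x w y : ℝ, 0 < y →
          4 * lam ^ 2 * (x + 2 * m * lam * w + m ^ 2 * lam ^ 2 * y) / y =
          4 * lam ^ 2 * (x / y + 2 * m * lam * (w / y) + m ^ 2 * lam ^ 2) := by
        intro x w y hy; field_simp
      rw [e2 _ _ _ hM0]
      refine q2.trans (mul_le_mul_of_nonneg_right (by linarith) hlam.le)
    · rw [moq_tl μ lam m γ (fun z => z ^ 4) (by fun_prop)]
      have e : ∫ z, (-2 * lam * (z + m * lam)) ^ 4 * Real.exp (-(γ * lam) * z) ∂μ =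
          16 * lam ^ 4 * ∫ z, (z + m * lam) ^ 4 * Real.exp (-(γ * lam) * z) ∂μ := by
        rw [← integral_const_mul]
        refine integral_congr_ae (Filter.Eventually.of_forall fun z => ?_)
        simp only; ring
      rw [e]
      have h9 := g5 (m * lam) (by
        rw [abs_of_nonneg (by positivity)]
        calc m * lam ≤ 1 * 1 := mul_le_mul hm2 hlam1 hlam.le (by norm_num)
          _ = 1 := one_mul _)
      have h10 : 16 * lam ^ 4 * (∫ z, (z + m * lam) ^ 4 * Real.exp (-(γ * lam) * z) ∂μ) /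
          (∫ z, Real.exp (-(γ * lam) * z) ∂μ) ≤ 16 * lam ^ 4 * B := by
        rw [div_le_iff₀ hM0]
        refine (mul_le_mul_of_nonneg_left h9 (by positivity)).trans ?_
        exact le_mul_of_one_le_right (by positivity) g1
      calc _ ≤ L * (16 * lam ^ 4 * B) := mul_le_mul_of_nonneg_left h10 hL0
        _ = 16 * B * lam ^ 2 * (L * lam ^ 2) := by ring
        _ ≤ 16 * B * lam ^ 2 * 2 := mul_le_mul_of_nonneg_left hL3 (by positivity)
        _ = 32 * B * lam ^ 2 := by ring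
        _ ≤ 32 * B * lam := mul_le_mul_of_nonneg_left hll (by positivity)
        _ ≤ (12 + 128 * C1 + (28 + 24 * D) + 32 * B + 1) * lam :=
            mul_le_mul_of_nonneg_right (by linarith) hlam.le

end Pool.Agent.H35.SLN
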